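import Pool.Agent.Run7.h53.VU.P10a

/-!
# Shift of a lattice by a complex number: many variables
-/

set_option autoImplicit false

namespace Run7.h53.VU

open Filter Topology Metric Function Finset
open Run7.h260.VC Run7.h260.VX
open scoped Real

variable {ι : Type} [Fintype ι] [DecidableEq ι]

/-- shift of the coordinates in `T` -/
noncomputable def sh (T : Finset ι) (b : ℂ) (y : ι → ℂ) : ι → ℂ :=
  fun j => y j + if j ∈ T then b else 0

omit [Fintype ι] in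
lemma sh_insert {T : Finset ι} {i : ι} (b : ℂ) (y : ι → ℂ) (w : ℂ) :
    sh (insert i T) b (update y i w) = update (sh T b y) i (w + b) := by
  funext j
  unfold sh
  by_cases hj : j = i
  · subst hj; simp
  · simp [hj]

omit [Fintype ι] in
lemma sh_same {T : Finset ι} {i : ι} (hi : i ∉ T) (b : ℂ) (y : ι → ℂ) (w : ℂ) :
    sh T b (update y i w) = update (sh T b y) i w := by
  funext j
  unfold sh
  by_cases hj : j = i
  · subst hj; simp [hi]
  · simp [hj]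

omit [Fintype ι] in
lemma sh_empty (b : ℂ) (y : ι → ℂ) : sh ∅ b y = y := by
  funext j
  simp [sh]

/-- splitting one variable off -/
lemma split (c ρ : ℝ) {S : Finset ι} {i : ι} (hi : i ∈ S) (G : (ι → ℂ) → ℂ) (N : ℕ) (x : ι → ℂ) :
    ∑ d ∈ Cf c (fun _ => ρ) S N, G (pt c S N d x) =
      ∑ d ∈ Cf c (fun _ => ρ) (S.erase i) N, ∑ e ∈ Ws c ρ N,
        G (update (pt c (S.erase i) N d x) i ((e : ℂ) / N - c)) := by
  have h := ST_insert c (fun _ : ι => ρ) ρ (Finset.notMem_erase i S) (fun _ : ℕ => G)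
  rw [Function.update_eq_self, Finset.insert_erase hi] at h
  have h1 := congrFun (congrFun h N) x
  unfold Run7.h260.VC.ST Sm at h1
  rw [h1, Finset.sum_comm]
  refine Finset.sum_congr rfl fun d _ => Finset.sum_congr rfl fun e _ => ?_
  show G _ = G _
  refine congrArg G ?_
  funext j
  unfold pt
  by_cases hj : j = i
  · subst hj; simp
  · simp [hj]

lemma card_Cf {ρ : ℝ} (hρ0 : 0 < ρ) (hρ : ρ ≤ 1 / 16) (S : Finset ι) (N : ℕ) :
    ((Cf (1 / 3) (fun _ : ι => ρ) S N).card : ℝ) ≤ ((N : ℝ) + 1) ^ Fintype.card ι := by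
  have h : (Cf (1 / 3) (fun _ : ι => ρ) S N).card ≤ (N + 1) ^ Fintype.card ι := by
    unfold Cf
    rw [Fintype.card_piFinset]
    refine (Finset.prod_le_prod' (g := fun _ => N + 1) fun i _ => ?_).trans ?_
    · by_cases hi : i ∈ S
      · simp only [hi, if_true]
        unfold Ws
        rw [Nat.card_Ico]
        refine (Nat.sub_le _ _).trans ?_
        rw [Nat.ceil_le]
        push_cast
        have : (0 : ℝ) ≤ N := Nat.cast_nonneg N
        nlinarith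
      · simp [hi]
    · simp
  exact_mod_cast h

/-- one step -/
theorem step {ρ : ℝ} (hρ0 : 0 < ρ) (hρ : ρ ≤ 1 / 16) {S T : Finset ι} {i : ι} (hiS : i ∈ S)
    (hiT : i ∉ T) (hTS : T ⊆ S) {N : ℕ} (hN : 0 < N) (hNh : 1 ≤ N * (ρ ^ 2 / 48))
    (hNρ : 1 / (N : ℝ) ≤ ρ / 4) {C₀ V ε : ℝ} (hC₀ : 0 ≤ C₀) (hε0 : 0 ≤ ε)
    (hε : ε ≤ ρ ^ 2 / 10000) {f : (ι → ℂ) → ℂ} {x : ι → ℂ} {b : ℂ} (hb : (S.card : ℝ) * ‖b‖ ≤ ε)
    (hd : ∀ y : ι → ℂ, (∀ j, j ∉ S → y j = x j) → (∀ j ∈ S, ‖y j‖ ≤ 4 * ρ) →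
      ∀ i ∈ S, DifferentiableAt ℂ (fun w => f (update y i w)) (y i))
    (hf : ∀ y : ι → ℂ, (∀ j, j ∉ S → y j = x j) → (∀ j ∈ S, ‖y j‖ ≤ 4 * ρ) →
      ‖f y‖ ≤ C₀ * Real.exp (N * (V + ε - ∑ j ∈ S, (y j).re ^ 2 + 5 * ∑ j ∈ S, |(y j).im|))) :
    ‖∑ d ∈ Cf (1 / 3) (fun _ => ρ) S N, f (sh T b (pt (1 / 3) S N d x)) -
      ∑ d ∈ Cf (1 / 3) (fun _ => ρ) S N, f (sh (insert i T) b (pt (1 / 3) S N d x))‖ ≤
      ((N : ℝ) + 1) ^ Fintype.card ι * (C₀ * 32 * N * Real.exp (N * (V - ρ ^ 2 / 480))) := by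
  have hN' : (0 : ℝ) < N := by exact_mod_cast hN
  have hρ2 : ρ ^ 2 ≤ ρ / 16 := by nlinarith
  have hc1 : (1 : ℝ) ≤ S.card := by
    have : 0 < S.card := Finset.card_pos.2 ⟨i, hiS⟩
    exact_mod_cast this
  have hb1 : ‖b‖ ≤ ε := by
    have := norm_nonneg b
    nlinarith
  rw [split (1 / 3) ρ hiS (fun y => f (sh T b y)), split (1 / 3) ρ hiS (fun y => f (sh (insert i T) b y)),
    ← Finset.sum_sub_distrib]
  refine (norm_sum_le _ _).trans ((Finset.sum_le_sum (g := fun _ =>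
    (C₀ * 32 * N * Real.exp (N * (V - ρ ^ 2 / 480)))) fun d hd' => ?_).trans ?_)
  · set Y : ι → ℂ := sh T b (pt (1 / 3) (S.erase i) N d x) with hY
    have e1 : ∀ w : ℂ, sh T b (update (pt (1 / 3) (S.erase i) N d x) i w) = update Y i w :=
      fun w => sh_same hiT b _ w
    have e2 : ∀ w : ℂ, sh (insert i T) b (update (pt (1 / 3) (S.erase i) N d x) i w) =
      update Y i (w + b) := fun w => sh_insert b _ w
    simp only [e1, e2]
    rw [Cf_mem] at hd'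
    have hYx : ∀ j, j ∉ S → Y j = x j := by
      intro j hj
      have h1 : j ∉ T := fun h => hj (hTS h)
      simp [hY, sh, pt, h1, hj]
    have hYn : ∀ j ∈ S.erase i, ‖Y j‖ ≤ 4 * ρ ∧ |(Y j).im| ≤ ‖b‖ := by
      intro j hj
      have h1 := ws_cast hN ((hd' j).1 hj)
      have h2 : ‖(if j ∈ T then b else 0 : ℂ)‖ ≤ ‖b‖ := by split_ifs <;> simp
      have h3 : Y j = ((d j : ℂ) / N - ((1 / 3 : ℝ) : ℂ)) + (if j ∈ T then b else 0) := by
        simp only [hY, sh, pt, hj, if_true]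
      constructor
      · rw [h3]
        refine (norm_add_le _ _).trans ?_
        linarith
      · rw [h3]
        have h4 : ((d j : ℂ) / N - ((1 / 3 : ℝ) : ℂ)) = (((d j : ℝ) / N - 1 / 3 : ℝ) : ℂ) := by
          push_cast; rfl
        rw [h4, Complex.add_im, Complex.ofReal_im, zero_add]
        exact (Complex.abs_im_le_norm _).trans h2
    have hup1 : ∀ w : ℂ, ∀ j, j ∉ S → update Y i w j = x j := by
      intro w j hj
      have hji : j ≠ i := fun h => hj (by rw [h]; exact hiS)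
      rw [update_of_ne hji]
      exact hYx j hj
    have hup2 : ∀ w : ℂ, ‖w‖ ≤ 4 * ρ → ∀ j ∈ S, ‖update Y i w j‖ ≤ 4 * ρ := by
      intro w hw j hj
      by_cases h : j = i
      · subst h; simpa using hw
      · rw [update_of_ne h]
        exact (hYn j (Finset.mem_erase.2 ⟨h, hj⟩)).1
    have h := one_var (g := fun w => f (update Y i w)) (V := V) hρ0 hρ hN hNh hNρ hC₀ hε0 hε hb1
      (by
        intro w hw
        have h1 := hd (update Y i w) (hup1 w) (hup2 w hw) i hiS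
        simpa only [update_idem, update_self] using h1)
      (by
        intro w hw
        refine (hf (update Y i w) (hup1 w) (hup2 w hw)).trans ?_
        refine mul_le_mul_of_nonneg_left (Real.exp_le_exp.2 ?_) hC₀
        refine mul_le_mul_of_nonneg_left ?_ hN'.le
        have s1 : w.re ^ 2 ≤ ∑ j ∈ S, (update Y i w j).re ^ 2 := by
          have := Finset.single_le_sum (f := fun j => (update Y i w j).re ^ 2)
            (fun j _ => sq_nonneg _) hiS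
          simpa using this
        have s2 : ∑ j ∈ S, |(update Y i w j).im| ≤ |w.im| + ε := by
          rw [← Finset.add_sum_erase _ _ hiS, update_self]
          refine add_le_add le_rfl ?_
          refine (Finset.sum_le_sum (g := fun _ => ‖b‖) fun j hj => ?_).trans ?_
          · rw [update_of_ne (Finset.ne_of_mem_erase hj)]
            exact (hYn j hj).2
          · rw [Finset.sum_const, nsmul_eq_mul]
            refine le_trans ?_ hb
            refine mul_le_mul_of_nonneg_right ?_ (norm_nonneg _)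
            exact_mod_cast Finset.card_erase_le
        linarith)
    rw [← Finset.sum_sub_distrib] at h ⊢
    exact h
  · rw [Finset.sum_const, nsmul_eq_mul]
    refine mul_le_mul_of_nonneg_right (card_Cf hρ0 hρ _ _) ?_
    positivity

/-- all steps -/
theorem steps {ρ : ℝ} (hρ0 : 0 < ρ) (hρ : ρ ≤ 1 / 16) {S : Finset ι} {N : ℕ} (hN : 0 < N)
    (hNh : 1 ≤ N * (ρ ^ 2 / 48))
    (hNρ : 1 / (N : ℝ) ≤ ρ / 4) {C₀ V ε : ℝ} (hC₀ : 0 ≤ C₀) (hε0 : 0 ≤ ε)
    (hε : ε ≤ ρ ^ 2 / 10000) {f : (ι → ℂ) → ℂ} {x : ι → ℂ} {b : ℂ} (hb : (S.card : ℝ) * ‖b‖ ≤ ε)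
    (hd : ∀ y : ι → ℂ, (∀ j, j ∉ S → y j = x j) → (∀ j ∈ S, ‖y j‖ ≤ 4 * ρ) →
      ∀ i ∈ S, DifferentiableAt ℂ (fun w => f (update y i w)) (y i))
    (hf : ∀ y : ι → ℂ, (∀ j, j ∉ S → y j = x j) → (∀ j ∈ S, ‖y j‖ ≤ 4 * ρ) →
      ‖f y‖ ≤ C₀ * Real.exp (N * (V + ε - ∑ j ∈ S, (y j).re ^ 2 + 5 * ∑ j ∈ S, |(y j).im|)))
    (T : Finset ι) : T ⊆ S →
    ‖∑ d ∈ Cf (1 / 3) (fun _ => ρ) S N, f (pt (1 / 3) S N d x) -
      ∑ d ∈ Cf (1 / 3) (fun _ => ρ) S N, f (sh T b (pt (1 / 3) S N d x))‖ ≤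
      T.card * (((N : ℝ) + 1) ^ Fintype.card ι * (C₀ * 32 * N * Real.exp (N * (V - ρ ^ 2 / 480)))) := by
  induction T using Finset.induction_on with
  | empty =>
    intro _
    simp [sh_empty]
  | insert i T hi ih =>
    intro hT
    have h1 := ih ((Finset.subset_insert i T).trans hT)
    have h2 := step hρ0 hρ (hT (Finset.mem_insert_self i T)) hi ((Finset.subset_insert i T).trans hT)
      hN hNh hNρ hC₀ hε0 hε hb hd hf
    rw [Finset.card_insert_of_notMem hi]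
    push_cast
    refine (norm_sub_le_norm_sub_add_norm_sub _ _ _).trans ((add_le_add h1 h2).trans (le_of_eq ?_))
    ring

/-- P10 -/
theorem p10 : ∀ ρ : ℝ, 0 < ρ → ρ ≤ 1 / 16 → ∃ ε κ : ℝ, 0 < ε ∧ 0 < κ ∧
  ∀ (ι : Type) [Fintype ι] [DecidableEq ι] (S : Finset ι) (C₀ : ℝ), 0 ≤ C₀ → ∀ᶠ N : ℕ in atTop,
    ∀ (f : (ι → ℂ) → ℂ) (V : ℝ) (x : ι → ℂ) (b : ℂ), (S.card : ℝ) * ‖b‖ ≤ ε →
    (∀ y : ι → ℂ, (∀ j, j ∉ S → y j = x j) → (∀ j ∈ S, ‖y j‖ ≤ 4 * ρ) →
      ∀ i ∈ S, DifferentiableAt ℂ (fun w => f (update y i w)) (y i)) →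
    (∀ y : ι → ℂ, (∀ j, j ∉ S → y j = x j) → (∀ j ∈ S, ‖y j‖ ≤ 4 * ρ) →
      ‖f y‖ ≤ C₀ * Real.exp (N * (V + ε - ∑ j ∈ S, (y j).re ^ 2 + 5 * ∑ j ∈ S, |(y j).im|))) →
    ‖∑ d ∈ Cf (1 / 3) (fun _ => ρ) S N, f (pt (1 / 3) S N d x) -
      ∑ d ∈ Cf (1 / 3) (fun _ => ρ) S N,
        f (fun i => if i ∈ S then (d i : ℂ) / N - 1 / 3 + b else x i)‖ ≤ Real.exp (N * (V - κ)) := by
  intro ρ hρ0 hρ
  have hρ2 : 0 < ρ ^ 2 := by positivity
  refine ⟨ρ ^ 2 / 10000, ρ ^ 2 / 960, by positivity, by positivity, ?_⟩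
  intro ι _ _ S C₀ hC₀
  obtain ⟨C, hC, hCN⟩ := pow_exp_bd (Fintype.card ι + 2) (κ := ρ ^ 2 / 960) (by positivity)
  have t1 : Tendsto (fun N : ℕ => (N : ℝ)) atTop atTop := tendsto_natCast_atTop_atTop
  filter_upwards [hCN, eventually_ge_atTop 1, t1.eventually_ge_atTop (48 / ρ ^ 2),
    t1.eventually_ge_atTop (4 / ρ),
    t1.eventually_ge_atTop (S.card * (2 ^ Fintype.card ι * (C₀ * 32)) * C)] with N hCN hN n1 n2 n3
  intro f V x b hb hd hf
  have hN0 : 0 < N := hN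
  have hN' : (0 : ℝ) < N := by exact_mod_cast hN0
  have hN1 : (1 : ℝ) ≤ N := by exact_mod_cast hN
  have m1 : 1 ≤ N * (ρ ^ 2 / 48) := by
    rw [div_le_iff₀ hρ2] at n1
    linarith
  have m2 : 1 / (N : ℝ) ≤ ρ / 4 := by
    rw [div_le_iff₀ hρ0] at n2
    rw [div_le_iff₀ hN']
    linarith
  have h := steps hρ0 hρ (N := N) hN0 m1 m2 hC₀ (by positivity) le_rfl hb hd hf S (Finset.Subset.refl S)
  have e : ∀ d ∈ Cf (1 / 3) (fun _ : ι => ρ) S N, f (sh S b (pt (1 / 3) S N d x)) =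
      f (fun i => if i ∈ S then (d i : ℂ) / N - 1 / 3 + b else x i) := by
    intro d _
    congr 1
    funext j
    unfold sh pt
    by_cases hj : j ∈ S
    · simp [hj]
    · simp [hj]
  rw [Finset.sum_congr rfl e] at h
  refine h.trans ?_
  have h2 : ((N : ℝ) + 1) ^ Fintype.card ι ≤ 2 ^ Fintype.card ι * (N : ℝ) ^ Fintype.card ι := by
    rw [← mul_pow]
    exact pow_le_pow_left₀ (by positivity) (by linarith) _
  have h3 : Real.exp (N * (V - ρ ^ 2 / 480)) =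
      Real.exp (N * (V - ρ ^ 2 / 960)) * Real.exp (-(ρ ^ 2 / 960 * N)) := by
    rw [← Real.exp_add]; congr 1; ring
  rw [h3]
  have hE := Real.exp_pos (N * (V - ρ ^ 2 / 960))
  have h4 : (S.card : ℝ) * (((N : ℝ) + 1) ^ Fintype.card ι * (C₀ * 32 * N *
      (Real.exp (N * (V - ρ ^ 2 / 960)) * Real.exp (-(ρ ^ 2 / 960 * N))))) ≤
      (S.card : ℝ) * ((2 ^ Fintype.card ι * (N : ℝ) ^ Fintype.card ι) * (C₀ * 32 * N *
      (Real.exp (N * (V - ρ ^ 2 / 960)) * Real.exp (-(ρ ^ 2 / 960 * N))))) := by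
    refine mul_le_mul_of_nonneg_left (mul_le_mul_of_nonneg_right h2 (by positivity)) (by positivity)
  refine h4.trans ?_
  have h5 : (S.card : ℝ) * ((2 ^ Fintype.card ι * (N : ℝ) ^ Fintype.card ι) * (C₀ * 32 * N *
      (Real.exp (N * (V - ρ ^ 2 / 960)) * Real.exp (-(ρ ^ 2 / 960 * N))))) =
      ((S.card * (2 ^ Fintype.card ι * (C₀ * 32))) * ((N : ℝ) ^ (Fintype.card ι + 1) *
        Real.exp (-(ρ ^ 2 / 960 * N)))) * Real.exp (N * (V - ρ ^ 2 / 960)) := by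
    rw [pow_succ]; ring
  rw [h5]
  refine mul_le_of_le_one_left hE.le ?_
  have h6 : (N : ℝ) ^ (Fintype.card ι + 1) * Real.exp (-(ρ ^ 2 / 960 * N)) ≤ C / N := by
    rw [le_div_iff₀ hN']
    calc _ = (N : ℝ) ^ (Fintype.card ι + 2) * Real.exp (-(ρ ^ 2 / 960 * N)) := by rw [pow_succ _ (Fintype.card ι + 1)]; ring
      _ ≤ C := hCN
  refine (mul_le_mul_of_nonneg_left h6 (by positivity)).trans ?_
  rw [← mul_div_assoc, div_le_one hN']
  exact n3

end Run7.h53.VU
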