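import Pool.Agent.W719.AX.Gen

/-!
# Patching of uniform expansions on a compact disk
-/

set_option autoImplicit false

namespace Run7.h53.VU

open Filter Topology Metric Function Finset
open Pool.Agent.W719.AX (UX)

theorem p12 : ∀ (r : ℝ) (Y : ℕ → ℂ → ℂ), (∀ χ₁ : ℂ, ‖χ₁‖ ≤ r → ∃ (R : ℝ) (A : ℕ → ℂ → ℂ), 0 < R ∧
    UX Y A (ball χ₁ R ∩ closedBall 0 r) ∧ ∀ χ ∈ ball χ₁ R ∩ closedBall 0 r, A 0 χ ≠ 0) →
  ∃ A : ℕ → ℂ → ℂ, UX Y A (closedBall 0 r) ∧ ∀ χ ∈ closedBall (0 : ℂ) r, A 0 χ ≠ 0 := by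
  classical
  intro r Y h
  choose! R A hR hU hA using h
  obtain ⟨t, ht, hcov⟩ := (isCompact_closedBall (0 : ℂ) r).elim_nhds_subcover (fun x => ball x (R x))
    (fun x hx => ball_mem_nhds x (hR x (by simpa using hx)))
  have hsel : ∀ χ : ℂ, ∃ p : ℂ, χ ∈ closedBall (0 : ℂ) r → p ∈ t ∧ χ ∈ ball p (R p) := by
    intro χ
    by_cases hχ : χ ∈ closedBall (0 : ℂ) r
    · have := hcov hχ
      simp only [Set.mem_iUnion, exists_prop] at this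
      obtain ⟨p, hp, hp'⟩ := this
      exact ⟨p, fun _ => ⟨hp, hp'⟩⟩
    · exact ⟨0, fun h => absurd h hχ⟩
  choose s hs using hsel
  refine ⟨fun k χ => A (s χ) k χ, ?_, ?_⟩
  · intro K
    have h1 : ∀ p ∈ t, ∃ C : ℝ, ∀ᶠ N : ℕ in atTop, ∀ q ∈ ball p (R p) ∩ closedBall 0 r,
        ‖Y N q - ∑ k ∈ range K, A p k q / (N : ℂ) ^ k‖ ≤ C / (N : ℝ) ^ K :=
      fun p hp => hU p (by simpa using ht p hp) K
    choose! C hC using h1
    refine ⟨∑ p ∈ t, |C p|, ?_⟩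
    have h2 : ∀ᶠ N : ℕ in atTop, ∀ p ∈ t, ∀ q ∈ ball p (R p) ∩ closedBall 0 r,
        ‖Y N q - ∑ k ∈ range K, A p k q / (N : ℂ) ^ k‖ ≤ C p / (N : ℝ) ^ K :=
      (Filter.eventually_all_finset t).2 hC
    filter_upwards [h2] with N hN χ hχ
    obtain ⟨h3, h4⟩ := hs χ hχ
    refine (hN (s χ) h3 χ ⟨h4, hχ⟩).trans ?_
    refine div_le_div_of_nonneg_right ?_ (by positivity)
    exact (le_abs_self _).trans (Finset.single_le_sum (f := fun p => |C p|)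
      (fun p _ => abs_nonneg _) h3)
  · intro χ hχ
    obtain ⟨h3, h4⟩ := hs χ hχ
    exact hA (s χ) (by simpa using ht _ h3) χ ⟨h4, hχ⟩

end Run7.h53.VU
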