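import Pool.Agent.Run7.h260.VU.Iface
import Pool.Agent.Run7.h53.VU.P12a

/-!
# Piece P12 of VU
-/

set_option autoImplicit false

namespace Run7.h53.VU

theorem t_P12 : Run7.h260.VU.S_P12 := p12

end Run7.h53.VU
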