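import Pool.Agent.Run7.h260.VX.X2

/-!
# Shift of a lattice by a complex number: one variable, and many variables
-/

set_option autoImplicit false

namespace Run7.h53.VU

open Filter Topology Metric Function Finset
open Run7.h260.VC Run7.h260.VX
open scoped Real

/-- one variable -/
theorem one_var {N : ℕ} {g : ℂ → ℂ} {ρ V C₀ ε : ℝ} {b : ℂ} (hρ : 0 < ρ) (hρ1 : ρ ≤ 1 / 16)
    (hN : 0 < N) (hNh : 1 ≤ N * (ρ ^ 2 / 48)) (hNρ : 1 / (N : ℝ) ≤ ρ / 4) (hC₀ : 0 ≤ C₀)
    (hε0 : 0 ≤ ε) (hε : ε ≤ ρ ^ 2 / 10000) (hb : ‖b‖ ≤ ε)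
    (hd : ∀ w : ℂ, ‖w‖ ≤ 4 * ρ → DifferentiableAt ℂ g w)
    (hg : ∀ w : ℂ, ‖w‖ ≤ 4 * ρ →
      ‖g w‖ ≤ C₀ * Real.exp (N * (V + 6 * ε - w.re ^ 2 + 5 * |w.im|))) :
    ‖∑ e ∈ Ws (1 / 3) ρ N, g ((e : ℂ) / N - ((1 / 3 : ℝ) : ℂ)) -
      ∑ e ∈ Ws (1 / 3) ρ N, g ((e : ℂ) / N - ((1 / 3 : ℝ) : ℂ) + b)‖ ≤
      C₀ * 32 * N * Real.exp (N * (V - ρ ^ 2 / 480)) := by
  have hN' : (0 : ℝ) < N := by exact_mod_cast hN
  have hρ2 : ρ ^ 2 ≤ ρ / 16 := by nlinarith
  have hρ0 : 0 < ρ ^ 2 := by positivity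
  have hpt : ∀ s y : ℝ, |s| ≤ 2 * ρ → |y| ≤ ρ → ‖((s : ℂ) + y * Complex.I)‖ ≤ 3 * ρ :=
    fun s y h1 h2 => small_pt h1 h2
  have c1 := core (N := N) (g := g) (c := 1 / 3) (ρ := ρ) (hh := ρ ^ 2 / 48) (η := ρ / 2) (V := V)
    (C₀ := C₀) (ε := 20 * ε) (κ := ρ ^ 2 / 480) (k := 1) (R := 7 / 2 * ρ) (z := b) hN hNh hNρ hC₀ hρ
    (by linarith) (by linarith) (by linarith)
    (fun w hw => hd w (by rw [mem_ball_zero_iff] at hw; linarith)) one_pos
    (by
      intro s y h1 h2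
      have h3 := hpt s y h1 h2
      refine (hg _ (h3.trans (by linarith))).trans ?_
      refine mul_le_mul_of_nonneg_left (Real.exp_le_exp.2 ?_) hC₀
      refine mul_le_mul_of_nonneg_left ?_ hN'.le
      have e1 : ((s : ℂ) + y * Complex.I).re = s := by simp
      have e2 : ((s : ℂ) + y * Complex.I).im = y := by simp
      rw [e1, e2]
      have := abs_nonneg y
      linarith)
    (hb.trans (by linarith)) (by linarith) le_rfl (by linarith) (by nlinarith) (by linarith)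
    (by linarith) (by linarith) (by linarith) (by linarith) (by linarith) (by nlinarith)
  have c2 := core (N := N) (g := fun w => g (b + w)) (c := 1 / 3) (ρ := ρ) (hh := ρ ^ 2 / 48)
    (η := ρ / 2) (V := V)
    (C₀ := C₀) (ε := 20 * ε) (κ := ρ ^ 2 / 480) (k := 1) (R := 7 / 2 * ρ) (z := 0) hN hNh hNρ hC₀ hρ
    (by linarith) (by linarith) (by linarith)
    (fun w hw => by
      rw [mem_ball_zero_iff] at hw
      have h4 : ‖b + w‖ ≤ 4 * ρ := (norm_add_le _ _).trans (by linarith)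
      exact DifferentiableAt.comp (g := g) (f := fun w : ℂ => b + w) w (hd _ h4) (by fun_prop))
    one_pos
    (by
      intro s y h1 h2
      have h3 := hpt s y h1 h2
      have h4 : ‖b + (s + y * Complex.I)‖ ≤ 4 * ρ := (norm_add_le _ _).trans (by linarith)
      refine (hg _ h4).trans ?_
      refine mul_le_mul_of_nonneg_left (Real.exp_le_exp.2 ?_) hC₀
      refine mul_le_mul_of_nonneg_left ?_ hN'.le
      have e1 : (b + (s + y * Complex.I)).re = b.re + s := by simp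
      have e2 : (b + (s + y * Complex.I)).im = b.im + y := by simp
      rw [e1, e2]
      have q1 := abs_nonneg y
      have q2 : |b.im| ≤ ε := (Complex.abs_im_le_norm _).trans hb
      have q3 : |b.re| ≤ ε := (Complex.abs_re_le_norm _).trans hb
      have q4 : |b.im + y| ≤ ε + |y| := (abs_add_le _ _).trans (by linarith)
      have q5 : -(b.re + s) ^ 2 ≤ - s ^ 2 + ε := by
        have q6 : |b.re * s| ≤ ε * (2 * ρ) := by
          rw [abs_mul]
          exact mul_le_mul q3 h1 (abs_nonneg _) hε0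
        have q7 := (abs_le.1 q6).1
        have q8 : ε * (2 * ρ) ≤ ε * (1 / 8) := mul_le_mul_of_nonneg_left (by linarith) hε0
        nlinarith [sq_nonneg b.re]
      linarith)
    (by rw [norm_zero]; linarith) (by linarith) le_rfl (by linarith) (by nlinarith) (by linarith)
    (by linarith) (by linarith) (by linarith) (by linarith) (by linarith) (by nlinarith)
  simp only [zero_add] at c2
  have e : (∑ e ∈ Ws (1 / 3) ρ N, g (b + ((e : ℂ) / N - ((1 / 3 : ℝ) : ℂ)))) =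
      ∑ e ∈ Ws (1 / 3) ρ N, g ((e : ℂ) / N - ((1 / 3 : ℝ) : ℂ) + b) :=
    Finset.sum_congr rfl fun e _ => by rw [add_comm]
  rw [e] at c2
  have key : ∀ a b c : ℂ, ‖a - b‖ ≤ ‖a - c‖ + ‖b - c‖ := fun a b c => by
    rw [norm_sub_rev b c]; exact norm_sub_le_norm_sub_add_norm_sub a c b
  refine (key _ _ _).trans ((add_le_add c1 c2).trans (le_of_eq ?_))
  ring

end Run7.h53.VU
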